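import Pool.Agent.Helper44.HD.GoalsC

/-!
# MP_e5f486_ag, project HD, packet AT (Artin-Tate)
-/

set_option autoImplicit false

open Finset
open scoped TensorProduct

namespace Pool.Agent.Helper74.HD

open Pool.Agent.Helper44.HD

section core

variable (k B R : Type) [Field k] [CommRing B] [Ring R] [Algebra k B] [Algebra B R] [Algebra k R]
  [IsScalarTower k B R]

/-- the action of `B ⊗ B` -/
noncomputable def act : B ⊗[k] B →ₐ[k] R ⊗[k] Rᵐᵒᵖ :=
  Algebra.TensorProduct.map (IsScalarTower.toAlgHom k B R) (IsScalarTower.toAlgHom k B Rᵐᵒᵖ)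

theorem core2 (hft : Algebra.FiniteType k B) (h : (⊤ : Submodule B R).FG) :
    IsNoetherianRing (R ⊗[k] Rᵐᵒᵖ) := by
  let : Module (B ⊗[k] B) (R ⊗[k] Rᵐᵒᵖ) :=
    Module.compHom (R ⊗[k] Rᵐᵒᵖ) (act k B R).toRingHom
  have hsm : ∀ (p : B ⊗[k] B) (x : R ⊗[k] Rᵐᵒᵖ), p • x = act k B R p * x := fun _ _ => rfl
  have : IsScalarTower (B ⊗[k] B) (R ⊗[k] Rᵐᵒᵖ) (R ⊗[k] Rᵐᵒᵖ) :=
    ⟨fun p x y => by
      change (act k B R p * x) * y = act k B R p * (x * y)
      exact mul_assoc _ _ _⟩
  have : Algebra.FiniteType B (B ⊗[k] B) := Algebra.FiniteType.baseChange B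
  have : Algebra.FiniteType k (B ⊗[k] B) := Algebra.FiniteType.trans hft inferInstance
  have : IsNoetherianRing (B ⊗[k] B) := Algebra.FiniteType.isNoetherianRing k (B ⊗[k] B)
  obtain ⟨s, hs⟩ := h
  obtain ⟨T, hT⟩ : ∃ T : Set (R ⊗[k] Rᵐᵒᵖ),
      T = Set.image2 (fun a b => a ⊗ₜ[k] MulOpposite.op b) (s : Set R) (s : Set R) := ⟨_, rfl⟩
  have hTf : T.Finite := by
    rw [hT]
    exact Set.Finite.image2 _ s.finite_toSet s.finite_toSet
  have hmem : ∀ r : R, r ∈ Submodule.span B (s : Set R) := by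
    intro r
    rw [hs]
    exact Submodule.mem_top
  have hact1 : ∀ (z : B) (r : R) (x : Rᵐᵒᵖ),
      (z ⊗ₜ[k] (1 : B)) • (r ⊗ₜ[k] x) = (z • r) ⊗ₜ[k] x := by
    intro z r x
    rw [hsm]
    unfold act
    rw [Algebra.TensorProduct.map_tmul, Algebra.TensorProduct.tmul_mul_tmul, map_one, one_mul,
      IsScalarTower.toAlgHom_apply, Algebra.smul_def]
  have hact2 : ∀ (z : B) (r r' : R),
      ((1 : B) ⊗ₜ[k] z) • (r ⊗ₜ[k] MulOpposite.op r') = r ⊗ₜ[k] MulOpposite.op (z • r') := by
    intro z r r'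
    rw [hsm]
    unfold act
    rw [Algebra.TensorProduct.map_tmul, Algebra.TensorProduct.tmul_mul_tmul, map_one, one_mul,
      IsScalarTower.toAlgHom_apply, ← Algebra.smul_def, MulOpposite.op_smul]
  have h2 : ∀ r ∈ (s : Set R), ∀ r' : R,
      r ⊗ₜ[k] MulOpposite.op r' ∈ Submodule.span (B ⊗[k] B) T := by
    intro r hr r'
    induction hmem r' using Submodule.span_induction with
    | mem x hx =>
      refine Submodule.subset_span ?_
      rw [hT]
      exact ⟨r, hr, x, hx, rfl⟩
    | zero =>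
      rw [MulOpposite.op_zero, TensorProduct.tmul_zero]
      exact zero_mem _
    | add x y _ _ hx hy =>
      rw [MulOpposite.op_add, TensorProduct.tmul_add]
      exact add_mem hx hy
    | smul z x _ hx =>
      rw [← hact2]
      exact Submodule.smul_mem _ _ hx
  have h3 : ∀ r r' : R, r ⊗ₜ[k] MulOpposite.op r' ∈ Submodule.span (B ⊗[k] B) T := by
    intro r r'
    induction hmem r using Submodule.span_induction with
    | mem x hx => exact h2 x hx r'
    | zero =>
      rw [TensorProduct.zero_tmul]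
      exact zero_mem _
    | add x y _ _ hx hy =>
      rw [TensorProduct.add_tmul]
      exact add_mem hx hy
    | smul z x _ hx =>
      rw [← hact1]
      exact Submodule.smul_mem _ _ hx
  have : Module.Finite (B ⊗[k] B) (R ⊗[k] Rᵐᵒᵖ) := by
    rw [Module.finite_def, Submodule.fg_def]
    refine ⟨T, hTf, ?_⟩
    rw [eq_top_iff]
    intro x _
    induction x using TensorProduct.induction_on with
    | zero => exact zero_mem _
    | tmul a b =>
      have := h3 a b.unop
      rwa [MulOpposite.op_unop] at this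
    | add x y hx hy => exact add_mem (hx trivial) (hy trivial)
  have hN : IsNoetherian (B ⊗[k] B) (R ⊗[k] Rᵐᵒᵖ) := inferInstance
  exact isNoetherian_of_tower (B ⊗[k] B) hN

theorem core1 (hR : (⊤ : Subalgebra k R).FG) (h : (⊤ : Submodule B R).FG) :
    IsNoetherianRing (R ⊗[k] Rᵐᵒᵖ) := by
  obtain ⟨B₀, hB₀, h₀⟩ := exists_subalgebra_of_fg k B R hR h
  exact core2 k B₀ R (B₀.fg_iff_finiteType.1 hB₀) h₀

end core

/-- the center acts as an algebra -/
@[reducible] def centerAlg (k R : Type) [Field k] [Ring R] [Algebra k R] :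
    Algebra (Subalgebra.center k R) R where
  algebraMap := (Subalgebra.center k R).val.toRingHom
  commutes' := fun z x => ((Subalgebra.mem_center_iff.1 z.2) x).symm
  smul_def' := fun _ _ => rfl

/-- **AT** (Artin-Tate). -/
theorem at_ : StmtAT := by
  intro k R _ _ _ hfg hfin
  let := centerAlg k R
  have : IsScalarTower k (Subalgebra.center k R) R :=
    ⟨fun a b c => smul_mul_assoc a (b : R) c⟩
  exact core1 k (Subalgebra.center k R) R hfg (Module.finite_def.1 hfin)

end Pool.Agent.Helper74.HD
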